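import Mathlib

/-!
# Helper99/XYS/Base

Ramsey's theorem for triangles (`tri`), the bounded van der Waerden theorem (`vdw`) and the nested
progressions (`nest`) used for the pattern `x, y, x+y, x(y+1)`.
-/

set_option autoImplicit false

open Finset

namespace Pool.Agent.Helper99.XYS

/-- Triangles: `k` colours suffice on a set of size `n`. -/
theorem tri_aux {r : ℕ} : ∀ k : ℕ, ∃ n : ℕ, ∀ (χ : ℕ → ℕ → Fin r) (S : Finset ℕ)
    (C : Finset (Fin r)), C.card ≤ k → n ≤ S.card → (∀ a ∈ S, ∀ b ∈ S, a < b → χ a b ∈ C) →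
    ∃ a b d, a ∈ S ∧ b ∈ S ∧ d ∈ S ∧ a < b ∧ b < d ∧ χ b d = χ a b ∧ χ a d = χ a b := by
  intro k
  induction k with
  | zero =>
    refine ⟨2, ?_⟩
    intro χ S C hC hS h
    have hC0 : C = ∅ := by
      rw [← Finset.card_eq_zero]
      omega
    obtain ⟨a, ha, b, hb, hab⟩ := Finset.one_lt_card.1 (show 1 < S.card by omega)
    exfalso
    rcases Nat.lt_or_gt_of_ne hab with h1 | h1
    · have := h a ha b hb h1
      rw [hC0] at this
      simp at this
    · have := h b hb a ha h1
      rw [hC0] at this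
      simp at this
  | succ k ih =>
    obtain ⟨n, hn⟩ := ih
    refine ⟨(k + 1) * n + 1, ?_⟩
    intro χ S C hC hS h
    have hne : S.Nonempty := by
      rw [← Finset.card_pos]
      omega
    set a := S.min' hne with ha
    have haS : a ∈ S := S.min'_mem hne
    have hlt : ∀ b ∈ S.erase a, a < b := by
      intro b hb
      have h1 := Finset.mem_erase.1 hb
      exact lt_of_le_of_ne (S.min'_le b h1.2) (Ne.symm h1.1)
    have hmaps : ∀ b ∈ S.erase a, χ a b ∈ C := by
      intro b hb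
      exact h a haS b (Finset.mem_of_mem_erase hb) (hlt b hb)
    by_cases hn0 : n = 0
    · -- the set is irrelevant: apply the induction hypothesis to the empty set
      subst hn0
      obtain ⟨a', b, d, h1, -⟩ := hn χ ∅ ∅ (by simp) (by simp) (by simp)
      simp at h1
    have hcard : (S.erase a).card = S.card - 1 := Finset.card_erase_of_mem haS
    have hCne : C.Nonempty := by
      have : (S.erase a).Nonempty := by
        rw [← Finset.card_pos, hcard]
        have : 1 ≤ (k + 1) * n := Nat.mul_pos (by omega) (by omega)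
        omega
      obtain ⟨b, hb⟩ := this
      exact ⟨_, hmaps b hb⟩
    obtain ⟨κ, hκ, hfib⟩ := Finset.exists_le_card_fiber_of_mul_le_card_of_maps_to
      (s := S.erase a) (t := C) (f := fun b => χ a b) (n := n) hmaps hCne (by
        rw [hcard]
        calc C.card * n ≤ (k + 1) * n := Nat.mul_le_mul_right _ hC
          _ ≤ S.card - 1 := by omega)
    set S2 := (S.erase a).filter (fun b => χ a b = κ) with hS2
    have hS2S : ∀ b ∈ S2, b ∈ S ∧ a < b ∧ χ a b = κ := by
      intro b hb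
      have h1 := Finset.mem_filter.1 hb
      exact ⟨Finset.mem_of_mem_erase h1.1, hlt b h1.1, h1.2⟩
    by_cases hex : ∃ b ∈ S2, ∃ d ∈ S2, b < d ∧ χ b d = κ
    · obtain ⟨b, hb, d, hd, hbd, hbdκ⟩ := hex
      refine ⟨a, b, d, haS, (hS2S b hb).1, (hS2S d hd).1, (hS2S b hb).2.1, hbd, ?_, ?_⟩
      · rw [hbdκ, (hS2S b hb).2.2]
      · rw [(hS2S d hd).2.2, (hS2S b hb).2.2]
    · push Not at hex
      obtain ⟨a', b, d, h1, h2, h3, h4⟩ := hn χ S2 (C.erase κ) (by
        rw [Finset.card_erase_of_mem hκ]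
        omega) hfib (by
        intro b hb d hd hbd
        rw [Finset.mem_erase]
        exact ⟨hex b hb d hd hbd, h b (hS2S b hb).1 d (hS2S d hd).1 hbd⟩)
      exact ⟨a', b, d, (hS2S _ h1).1, (hS2S _ h2).1, (hS2S _ h3).1, h4⟩

theorem tri (r : ℕ) : ∃ n : ℕ, ∀ χ : ℕ → ℕ → Fin r,
    ∃ a b d, a < b ∧ b < d ∧ d ≤ n ∧ χ b d = χ a b ∧ χ a d = χ a b := by
  obtain ⟨n, hn⟩ := tri_aux (r := r) (Fintype.card (Fin r))
  refine ⟨n, ?_⟩
  intro χ
  obtain ⟨a, b, d, -, -, h1, h2, h3, h4, h5⟩ := hn χ (Finset.range (n + 1)) Finset.univ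
    (by simp) (by simp) (by simp)
  exact ⟨a, b, d, h2, h3, by simpa [Nat.lt_succ_iff] using h1, h4, h5⟩

/-- Bounded van der Waerden. -/
theorem vdw (κ : Type) [Finite κ] (K : ℕ) : ∃ W : ℕ, ∀ (C : ℕ → κ) (b₀ : ℕ),
    ∃ b d, b₀ ≤ b ∧ 1 ≤ d ∧ d ≤ W ∧ b + K * d ≤ b₀ + W ∧ ∀ k ≤ K, C (b + k * d) = C b := by
  classical
  obtain ⟨ι, _inst, hι⟩ := Combinatorics.Line.exists_mono_in_high_dimension (Fin (K + 1)) κ
  refine ⟨Fintype.card ι * K + Fintype.card ι, ?_⟩
  intro C b₀
  obtain ⟨l, c, hl⟩ := hι fun v => C (b₀ + ∑ i, (v i : ℕ))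
  set s : Finset ι := Finset.univ.filter (fun i => l.idxFun i = none) with hs
  have hsum : ∀ x : Fin (K + 1), ∑ i, ((l x i : Fin (K + 1)) : ℕ)
      = ∑ i, ((l 0 i : Fin (K + 1)) : ℕ) + (x : ℕ) * s.card := by
    intro x
    have h1 : (x : ℕ) * s.card = ∑ i, (if l.idxFun i = none then (x : ℕ) else 0) := by
      rw [← Finset.sum_filter, Finset.sum_const, smul_eq_mul, mul_comm]
    rw [h1, ← Finset.sum_add_distrib]
    apply Finset.sum_congr rfl
    intro i _
    by_cases hi : l.idxFun i = none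
    · rw [l.apply_none _ _ hi, l.apply_none _ _ hi, if_pos hi]
      simp
    · obtain ⟨y, hy⟩ := Option.ne_none_iff_exists.mp hi
      rw [if_neg hi, l.apply_some (hy.symm), l.apply_some (hy.symm)]
      simp
  have hpos : 1 ≤ s.card := by
    rw [Nat.one_le_iff_ne_zero, ← Nat.pos_iff_ne_zero, Finset.card_pos]
    obtain ⟨i, hi⟩ := l.proper
    exact ⟨i, by rw [hs, Finset.mem_filter]; exact ⟨Finset.mem_univ _, hi⟩⟩
  have hval : ∀ k, k ≤ K → C (b₀ + ∑ i, ((l 0 i : Fin (K + 1)) : ℕ) + k * s.card) = c := by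
    intro k hk
    have h1 := hl ⟨k, Nat.lt_succ_of_le hk⟩
    have h2 := hsum ⟨k, Nat.lt_succ_of_le hk⟩
    simp only at h1 h2
    rw [h2] at h1
    rw [← h1, add_assoc]
  refine ⟨b₀ + ∑ i, ((l 0 i : Fin (K + 1)) : ℕ), s.card, by omega, hpos, ?_, ?_, ?_⟩
  · have h1 : s.card ≤ Fintype.card ι := Finset.card_le_univ s
    omega
  · have h1 := hsum ⟨K, Nat.lt_succ_self K⟩
    simp only at h1
    rw [add_assoc, ← h1]
    apply Nat.add_le_add_left
    refine le_trans ?_ (Nat.le_add_right _ _)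
    calc ∑ i, ((l ⟨K, Nat.lt_succ_self K⟩ i : Fin (K + 1)) : ℕ) ≤ ∑ _i : ι, K := by
          apply Finset.sum_le_sum
          intro i _
          exact Nat.lt_succ_iff.1 (Fin.is_lt _)
      _ = Fintype.card ι * K := by
          rw [Finset.sum_const, smul_eq_mul, Finset.card_univ]
  · intro k hk
    rw [hval k hk]
    have h0 := hval 0 (Nat.zero_le _)
    rw [zero_mul, add_zero] at h0
    rw [h0]

/-- Nested progressions. -/
theorem nest (r K : ℕ) : ∀ n : ℕ, ∃ B : ℕ, ∀ (e : ℕ → ℕ → Fin r) (b₀ : ℕ),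
    ∃ (i : ℕ) (j : ℕ → ℕ), b₀ ≤ i ∧ (∀ t, 1 ≤ j t) ∧
      i + (K + 1) * (∑ t ∈ range n, j t) ≤ b₀ + B ∧
      ∀ a s t, a ≤ s → s ≤ t → t ≤ n → ∀ k ≤ K,
        e (i + k * ∑ x ∈ Ico s t, j x) (∑ x ∈ Ico a s, j x) = e i (∑ x ∈ Ico a s, j x) := by
  intro n
  induction n with
  | zero =>
    refine ⟨0, fun e b₀ => ⟨b₀, fun _ => 1, le_refl _, fun _ => le_refl _, by simp, ?_⟩⟩
    intro a s t h1 h2 h3 k _
    have ht : t = 0 := by omega
    have hs : s = 0 := by omega
    subst ht hs
    simp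
  | succ n ih =>
    obtain ⟨B, hB⟩ := ih
    obtain ⟨W, hW⟩ := vdw (Fin (B + 1) → Fin (B + 1) → Fin r) K
    refine ⟨W + B + (K + 1) * W, ?_⟩
    intro e b₀
    obtain ⟨b, d, hb, hd, hdW, hbd, hC⟩ := hW (fun b p w => e (b + p) w) b₀
    obtain ⟨i, j, hi, hj, hij, hinv⟩ := hB e b
    have hC' : ∀ k ≤ K, ∀ p w, p ≤ B → w ≤ B → e (b + k * d + p) w = e (b + p) w := by
      intro k hk p w hp hw
      have h1 := congrFun (congrFun (hC k hk) ⟨p, Nat.lt_succ_of_le hp⟩)
        ⟨w, Nat.lt_succ_of_le hw⟩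
      exact h1
    refine ⟨i, fun t => if t = n then d else j t, hb.trans hi, ?_, ?_, ?_⟩
    · intro t
      by_cases ht : t = n
      · simp [ht, hd]
      · simp [ht, hj t]
    · rw [Finset.sum_range_succ]
      have h1 : ∑ t ∈ range n, (if t = n then d else j t) = ∑ t ∈ range n, j t := by
        apply Finset.sum_congr rfl
        intro t ht
        rw [if_neg (by have := Finset.mem_range.1 ht; omega)]
      rw [h1]
      simp only [if_true]
      rw [mul_add]
      have h3 : (K + 1) * d ≤ (K + 1) * W := Nat.mul_le_mul_left _ hdW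
      omega
    · have hIco : ∀ a s, s ≤ n → ∑ x ∈ Ico a s, (if x = n then d else j x)
          = ∑ x ∈ Ico a s, j x := by
        intro a s hs
        apply Finset.sum_congr rfl
        intro x hx
        rw [if_neg (by have := (Finset.mem_Ico.1 hx).2; omega)]
      intro a s t h1 h2 h3 k hk
      by_cases ht : t ≤ n
      · rw [hIco a s (by omega), hIco s t ht]
        exact hinv a s t h1 h2 ht k hk
      · have ht' : t = n + 1 := by omega
        subst ht'
        by_cases hs : s = n + 1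
        · subst hs
          simp
        · have hs' : s ≤ n := by omega
          rw [hIco a s hs', Finset.sum_Ico_succ_top hs', hIco s n (le_refl _)]
          simp only [if_true]
          have h4 : ∑ x ∈ Ico s n, j x ≤ ∑ x ∈ range n, j x := by
            apply Finset.sum_le_sum_of_subset
            intro x hx
            exact Finset.mem_range.2 (Finset.mem_Ico.1 hx).2
          have h5 : ∑ x ∈ Ico a s, j x ≤ ∑ x ∈ range n, j x := by
            apply Finset.sum_le_sum_of_subset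
            intro x hx
            have := (Finset.mem_Ico.1 hx).2
            exact Finset.mem_range.2 (by omega)
          have h6 : k * ∑ x ∈ Ico s n, j x ≤ K * ∑ x ∈ range n, j x :=
            Nat.mul_le_mul hk h4
          have h7 : (K + 1) * ∑ x ∈ range n, j x
              = K * (∑ x ∈ range n, j x) + ∑ x ∈ range n, j x := by ring
          obtain ⟨p, hp⟩ : ∃ p, i + k * ∑ x ∈ Ico s n, j x = b + p :=
            ⟨i + k * ∑ x ∈ Ico s n, j x - b, by omega⟩
          have h8 : i + k * (∑ x ∈ Ico s n, j x + d) = b + k * d + p := by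
            rw [mul_add, ← add_assoc, hp]
            ring
          rw [h8, hC' k hk p _ (by omega) (by omega), ← hp]
          exact hinv a s n h1 hs' (le_refl _) k hk

end Pool.Agent.Helper99.XYS
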