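import Pool.Agent.Helper99.XYS.Base

/-!
# Helper99/XYS/Main

The two theorems on the pattern `x, y, x+y, x(y+1)`.
-/

set_option autoImplicit false

open Finset

namespace Pool.Agent.Helper99.XYS

/-- The colouring version of `nest`: up to dilation. -/
theorem dil (r K : ℕ) : ∃ A : ℕ, ∀ (q : ℕ) (c : ℕ → Fin r),
    ∃ a j l : ℕ, a ≤ A ∧ 1 ≤ j ∧ 1 ≤ l ∧ j ≤ A ∧ l ≤ A ∧
      c (q ^ a * (q ^ l - 1)) = c (q ^ a * (q ^ j - 1)) ∧
      c (q ^ a * (q ^ (j + l) - 1)) = c (q ^ a * (q ^ j - 1)) ∧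
      ∀ k ≤ K, c (q ^ (a + k * j) * (q ^ l - 1)) = c (q ^ a * (q ^ j - 1)) := by
  obtain ⟨n, hn⟩ := tri r
  obtain ⟨B, hB⟩ := nest r K n
  refine ⟨B, ?_⟩
  intro q c
  obtain ⟨i, j, -, hj, hij, hinv⟩ := hB (fun b w => c (q ^ b * (q ^ w - 1))) 0
  obtain ⟨a, b, d, hab, hbd, hdn, h1, h2⟩ := hn
    (fun a b => c (q ^ i * (q ^ (∑ x ∈ Ico a b, j x) - 1)))
  have hpos : ∀ a b, a < b → 1 ≤ ∑ x ∈ Ico a b, j x := by
    intro a b hab
    calc 1 ≤ j a := hj a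
      _ ≤ ∑ x ∈ Ico a b, j x := by
          apply Finset.single_le_sum (fun x _ => Nat.zero_le _)
          rw [Finset.mem_Ico]
          exact ⟨le_refl _, hab⟩
  have hle : ∀ a b, b ≤ n → ∑ x ∈ Ico a b, j x ≤ B := by
    intro a b hb
    have h5 : ∑ x ∈ Ico a b, j x ≤ ∑ x ∈ range n, j x := by
      apply Finset.sum_le_sum_of_subset
      intro x hx
      have := (Finset.mem_Ico.1 hx).2
      exact Finset.mem_range.2 (by omega)
    have h7 : (K + 1) * ∑ x ∈ range n, j x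
        = K * (∑ x ∈ range n, j x) + ∑ x ∈ range n, j x := by ring
    omega
  refine ⟨i, ∑ x ∈ Ico b d, j x, ∑ x ∈ Ico a b, j x, by omega, hpos _ _ hbd, hpos _ _ hab,
    hle _ _ hdn, hle _ _ (by omega), ?_, ?_, ?_⟩
  · exact h1.symm
  · have h3 : ∑ x ∈ Ico b d, j x + ∑ x ∈ Ico a b, j x = ∑ x ∈ Ico a d, j x := by
      rw [add_comm]
      exact Finset.sum_Ico_consecutive _ hab.le hbd.le
    rw [h3]
    exact h2.trans h1.symm
  · intro k hk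
    have h4 := hinv a b d hab.le hbd.le hdn k hk
    exact h4.trans h1.symm

/-- Up to dilation, in terms of `x` and `y`. -/
theorem dil_xy (r K : ℕ) : ∃ A : ℕ, ∀ q : ℕ, 2 ≤ q → ∀ c : ℕ → Fin r,
    ∃ a j l x y : ℕ, a ≤ A ∧ 1 ≤ j ∧ 1 ≤ l ∧ j ≤ A ∧ l ≤ A ∧ 0 < x ∧ 0 < y ∧
      y + 1 = q ^ j ∧ x = q ^ j * (q ^ l - 1) ∧
      c (q ^ a * (q ^ l - 1)) = c (q ^ a * y) ∧
      c (q ^ a * (x + y)) = c (q ^ a * y) ∧
      ∀ k ≤ K, c (q ^ a * (x * (y + 1) ^ k)) = c (q ^ a * y) := by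
  obtain ⟨A, hA⟩ := dil r (K + 1)
  refine ⟨A, ?_⟩
  intro q hq c
  obtain ⟨a, j, l, ha, hj, hl, hjA, hlA, h1, h2, h3⟩ := hA q c
  have hjq : 2 ≤ q ^ j := hq.trans (Nat.le_self_pow (by omega) q)
  have hlq : 2 ≤ q ^ l := hq.trans (Nat.le_self_pow (by omega) q)
  refine ⟨a, j, l, q ^ j * (q ^ l - 1), q ^ j - 1, ha, hj, hl, hjA, hlA,
    Nat.mul_pos (by omega) (by omega), by omega, by omega, rfl, h1, ?_, ?_⟩
  · have h4 : q ^ j * (q ^ l - 1) + (q ^ j - 1) = q ^ (j + l) - 1 := by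
      rw [Nat.mul_sub, mul_one, ← pow_add]
      have h5 : q ^ j ≤ q ^ (j + l) := Nat.pow_le_pow_right (by omega) (by omega)
      omega
    rw [h4, h2]
  · intro k hk
    have h4 : q ^ j - 1 + 1 = q ^ j := by omega
    have h5 : q ^ a * (q ^ j * (q ^ l - 1) * (q ^ j - 1 + 1) ^ k)
        = q ^ (a + (k + 1) * j) * (q ^ l - 1) := by
      rw [h4, ← pow_mul, pow_add, add_mul, pow_add, one_mul, mul_comm k j]
      ring
    rw [h5]
    exact h3 (k + 1) (by omega)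

/-- With `x, y ≥ N` divisible by `D`. -/
theorem dil_large (r K N D q : ℕ) (hq : 2 ≤ q) (hD : 1 ≤ D) (hqD : Nat.Coprime q D)
    (c : ℕ → Fin r) :
    ∃ a x y z : ℕ, N ≤ x ∧ N ≤ y ∧ 0 < x ∧ 0 < y ∧ D ∣ x ∧ D ∣ y ∧
      x = z * (y + 1) ∧ c (q ^ a * z) = c (q ^ a * y) ∧
      c (q ^ a * (x + y)) = c (q ^ a * y) ∧
      ∀ k ≤ K, c (q ^ a * (x * (y + 1) ^ k)) = c (q ^ a * y) := by
  obtain ⟨A, hA⟩ := dil_xy r K
  set L := Nat.totient D * (N + 1) with hL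
  have hφ : 1 ≤ Nat.totient D := Nat.totient_pos.2 hD
  have hL1 : N + 1 ≤ L := by
    rw [hL]
    calc N + 1 = 1 * (N + 1) := (one_mul _).symm
      _ ≤ Nat.totient D * (N + 1) := Nat.mul_le_mul_right _ hφ
  have hqL : 2 ≤ q ^ L := hq.trans (Nat.le_self_pow (by omega) q)
  have hqN : N + 1 ≤ q ^ L := by
    calc N + 1 ≤ 2 ^ (N + 1) := Nat.lt_two_pow_self.le
      _ ≤ q ^ (N + 1) := Nat.pow_le_pow_left hq _
      _ ≤ q ^ L := Nat.pow_le_pow_right (by omega) hL1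
  have hmod1 : q ^ L ≡ 1 [MOD D] := by
    rw [hL, pow_mul]
    have h1 := (Nat.ModEq.pow_totient hqD).pow (N + 1)
    rwa [one_pow] at h1
  obtain ⟨a, j, l, x, y, -, hj, hl, -, -, hx, hy, hyj, hxj, h0, h1, h2⟩ := hA (q ^ L) hqL c
  have hdvd : ∀ m, D ∣ (q ^ L) ^ m - 1 := by
    intro m
    have h3 : (q ^ L) ^ m ≡ 1 [MOD D] := by
      have := hmod1.pow m
      rwa [one_pow] at this
    exact (Nat.modEq_iff_dvd' (Nat.one_le_pow _ _ (by omega))).1 h3.symm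
  have hyle : q ^ L ≤ y + 1 := by
    rw [hyj]
    exact Nat.le_self_pow (by omega) _
  have hxle : y + 1 ≤ x := by
    rw [hxj, ← hyj]
    have h3 : 2 ≤ (q ^ L) ^ l := hqL.trans (Nat.le_self_pow (by omega) _)
    calc y + 1 = (y + 1) * 1 := (mul_one _).symm
      _ ≤ (y + 1) * ((q ^ L) ^ l - 1) := Nat.mul_le_mul_left _ (by omega)
  refine ⟨L * a, x, y, (q ^ L) ^ l - 1, by omega, by omega, hx, hy, ?_, ?_, ?_, ?_, ?_, ?_⟩
  · rw [hxj]
    exact Dvd.dvd.mul_left (hdvd l) _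
  · have h3 : y = (q ^ L) ^ j - 1 := by omega
    rw [h3]
    exact hdvd j
  · rw [hxj, hyj, mul_comm]
  · rw [pow_mul]
    exact h0
  · rw [pow_mul]
    exact h1
  · intro k hk
    rw [pow_mul]
    exact h2 k hk

end Pool.Agent.Helper99.XYS
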