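import Pool.Agent.Helper99.XYS.Base

/-!
# Helper99/XYS/Rec

The pattern `x, y, x+y, x(y+1)^k` for colourings that are multiply recurrent under dilations.
-/

set_option autoImplicit false

open Finset

namespace Pool.Agent.Helper99.XYS

/-- partial products `P t = s 0 ⋯ s (t-1)` where `s t = g ((P t) ^ (K + 2))` -/
def PP (K : ℕ) (g : ℕ → ℕ) : ℕ → ℕ
  | 0 => 1
  | t + 1 => PP K g t * g ((PP K g t) ^ (K + 2))

theorem rec_core (r K D : ℕ) (c : ℕ → Fin r) (hD : 1 ≤ D)
    (h : ∀ N : ℕ, ∃ s : ℕ, 1 < s ∧ s ≡ 1 [MOD D] ∧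
      ∀ n, 0 < n → n ≤ N → D ∣ n → ∀ k, 1 ≤ k → k ≤ K + 1 → c (s ^ k * n) = c n) (N : ℕ) :
    ∃ x y z : ℕ, N ≤ x ∧ N ≤ y ∧ 0 < x ∧ 0 < y ∧ D ∣ x ∧ D ∣ y ∧
      x = z * (y + 1) ∧ c z = c y ∧
      c (x + y) = c y ∧ ∀ k ≤ K, c (x * (y + 1) ^ k) = c y := by
  choose g hg1 hgD hg using h
  set P := PP K g with hP
  set s : ℕ → ℕ := fun t => g ((P t) ^ (K + 2)) with hs
  have hP0 : P 0 = 1 := rfl
  have hPs : ∀ t, P (t + 1) = P t * s t := fun t => rfl
  have hs2 : ∀ t, 2 ≤ s t := fun t => hg1 _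
  have hsD : ∀ t, s t ≡ 1 [MOD D] := fun t => hgD _
  have hPpos : ∀ t, 1 ≤ P t := by
    intro t
    induction t with
    | zero => rw [hP0]
    | succ t ih =>
      rw [hPs]
      exact Nat.mul_pos ih (by have := hs2 t; omega)
  have hPU : ∀ a b, a ≤ b → P a * ∏ x ∈ Ico a b, s x = P b := by
    intro a b hab
    induction b, hab using Nat.le_induction with
    | base => simp
    | succ b hab ih => rw [Finset.prod_Ico_succ_top hab, ← mul_assoc, ih, hPs]
  have hUle : ∀ a b, a ≤ b → ∏ x ∈ Ico a b, s x ≤ P b := by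
    intro a b hab
    rw [← hPU a b hab]
    exact Nat.le_mul_of_pos_left _ (hPpos a)
  have hUD : ∀ a b, ∏ x ∈ Ico a b, s x ≡ 1 [MOD D] := by
    intro a b
    by_cases hab : a ≤ b
    · induction b, hab using Nat.le_induction with
      | base => simp [Nat.ModEq.refl]
      | succ b hab ih =>
        rw [Finset.prod_Ico_succ_top hab]
        exact ih.mul (hsD b)
    · rw [Finset.Ico_eq_empty (by omega), Finset.prod_empty]
  have hU2 : ∀ a b, 2 ^ (b - a) ≤ ∏ x ∈ Ico a b, s x := by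
    intro a b
    have : ∏ _x ∈ Ico a b, 2 = 2 ^ (b - a) := by
      rw [Finset.prod_const, Nat.card_Ico]
    rw [← this]
    exact Finset.prod_le_prod (fun _ _ => Nat.zero_le _) (fun x _ => hs2 x)
  have hUlt : ∀ a b, a < b → 2 ≤ ∏ x ∈ Ico a b, s x := by
    intro a b hab
    calc 2 = 2 ^ 1 := (pow_one 2).symm
      _ ≤ 2 ^ (b - a) := Nat.pow_le_pow_right (by omega) (by omega)
      _ ≤ _ := hU2 a b
  have hUdvd : ∀ a b, a < b → D ∣ ∏ x ∈ Ico a b, s x - 1 := by
    intro a b hab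
    exact (Nat.modEq_iff_dvd' (by have := hUlt a b hab; omega)).1 (hUD a b).symm
  have key : ∀ a b d, a < b → b ≤ d → ∀ k ≤ K + 1,
      c ((∏ x ∈ Ico b d, s x) ^ k * (∏ x ∈ Ico a b, s x - 1)) = c (∏ x ∈ Ico a b, s x - 1) := by
    intro a b d hab hbd k hk
    induction d, hbd using Nat.le_induction with
    | base => simp
    | succ d hbd ih =>
      by_cases hk0 : k = 0
      · simp [hk0]
      · rw [Finset.prod_Ico_succ_top hbd, mul_pow, mul_comm ((∏ x ∈ Ico b d, s x) ^ k), mul_assoc]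
        rw [← ih]
        apply hg _ _ _ _ _ k (by omega) hk
        · apply Nat.mul_pos
          · apply Nat.pow_pos
            have h1 := hU2 b d
            have h2 : 0 < 2 ^ (d - b) := by positivity
            omega
          · have := hUlt a b hab
            omega
        · have h1 : (∏ x ∈ Ico b d, s x) ^ k ≤ (P d) ^ (K + 1) :=
            (Nat.pow_le_pow_left (hUle b d hbd) k).trans (Nat.pow_le_pow_right (hPpos d) hk)
          have h2 : ∏ x ∈ Ico a b, s x - 1 ≤ P d := by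
            have h3 := hUle a b hab.le
            have h4 : P b ≤ P d := by
              rw [← hPU b d hbd]
              have h1 := hU2 b d
              have h2 : 0 < 2 ^ (d - b) := by positivity
              exact Nat.le_mul_of_pos_right _ (by omega)
            omega
          calc (∏ x ∈ Ico b d, s x) ^ k * (∏ x ∈ Ico a b, s x - 1)
              ≤ (P d) ^ (K + 1) * P d := Nat.mul_le_mul h1 h2
            _ = (P d) ^ (K + 2) := (pow_succ _ _).symm
        · exact Dvd.dvd.mul_left (hUdvd a b hab) _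
  obtain ⟨n, hn⟩ := tri r
  set M := N + 1 with hM
  obtain ⟨a, b, d, hab, hbd, -, h1, h2⟩ := hn
    (fun a b => c (∏ x ∈ Ico (M * a) (M * b), s x - 1))
  have habM : M * a < M * b := Nat.mul_lt_mul_of_pos_left hab (by omega)
  have hbdM : M * b < M * d := Nat.mul_lt_mul_of_pos_left hbd (by omega)
  have hsub : ∀ a b, a < b → N + 1 ≤ ∏ x ∈ Ico (M * a) (M * b), s x - 1 + 1 ∧
      N + 2 ≤ ∏ x ∈ Ico (M * a) (M * b), s x := by
    intro a b hab
    have h3 : M ≤ M * b - M * a := by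
      rw [← Nat.mul_sub]
      calc M = M * 1 := (mul_one _).symm
        _ ≤ M * (b - a) := Nat.mul_le_mul_left _ (by omega)
    have h4 : N + 2 ≤ 2 ^ (N + 1) := Nat.lt_two_pow_self
    have h5 : 2 ^ (N + 1) ≤ 2 ^ (M * b - M * a) := Nat.pow_le_pow_right (by omega) h3
    have h6 := hU2 (M * a) (M * b)
    omega
  have hu := hsub b d hbd
  have hv := hsub a b hab
  refine ⟨(∏ x ∈ Ico (M * b) (M * d), s x) * (∏ x ∈ Ico (M * a) (M * b), s x - 1),
    ∏ x ∈ Ico (M * b) (M * d), s x - 1, ∏ x ∈ Ico (M * a) (M * b), s x - 1,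
    ?_, by omega, ?_, by omega, ?_, hUdvd _ _ hbdM, ?_, h1.symm, ?_, ?_⟩
  · calc N ≤ ∏ x ∈ Ico (M * b) (M * d), s x := by omega
      _ ≤ _ := Nat.le_mul_of_pos_right _ (by omega)
  · exact Nat.mul_pos (by omega) (by omega)
  · exact Dvd.dvd.mul_left (hUdvd _ _ habM) _
  · have h3 : ∏ x ∈ Ico (M * b) (M * d), s x - 1 + 1 = ∏ x ∈ Ico (M * b) (M * d), s x := by omega
    rw [h3, mul_comm]
  · have h3 : (∏ x ∈ Ico (M * b) (M * d), s x) * (∏ x ∈ Ico (M * a) (M * b), s x - 1)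
        + (∏ x ∈ Ico (M * b) (M * d), s x - 1) = ∏ x ∈ Ico (M * a) (M * d), s x - 1 := by
      rw [← Finset.prod_Ico_consecutive _ habM.le hbdM.le, Nat.mul_sub, mul_one,
        mul_comm (∏ x ∈ Ico (M * b) (M * d), s x)]
      have h4 : ∏ x ∈ Ico (M * b) (M * d), s x ≤
          (∏ x ∈ Ico (M * a) (M * b), s x) * ∏ x ∈ Ico (M * b) (M * d), s x :=
        Nat.le_mul_of_pos_left _ (by omega)
      omega
    rw [h3]
    exact h2.trans h1.symm
  · intro k hk
    have h3 : ∏ x ∈ Ico (M * b) (M * d), s x - 1 + 1 = ∏ x ∈ Ico (M * b) (M * d), s x := by omega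
    have h4 : (∏ x ∈ Ico (M * b) (M * d), s x) * (∏ x ∈ Ico (M * a) (M * b), s x - 1) *
        (∏ x ∈ Ico (M * b) (M * d), s x) ^ k
        = (∏ x ∈ Ico (M * b) (M * d), s x) ^ (k + 1) * (∏ x ∈ Ico (M * a) (M * b), s x - 1) := by
      ring
    rw [h3, h4, key _ _ _ habM hbdM.le (k + 1) (by omega)]
    exact h1.symm

end Pool.Agent.Helper99.XYS
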