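import Pool.Agent.Helper99.XYS.Rec

/-!
# Helper99/XYS/RecB

Special cases of `rec_core`.
-/

set_option autoImplicit false

open Finset

namespace Pool.Agent.Helper99.XYS

/-- Invariance under one multiplication. -/
theorem rec_q (r K q D : ℕ) (c : ℕ → Fin r) (hq : 2 ≤ q) (hD : 1 ≤ D) (hqD : Nat.Coprime q D)
    (h : ∀ n, 0 < n → D ∣ n → c (q * n) = c n) (N : ℕ) :
    ∃ x y z : ℕ, N ≤ x ∧ N ≤ y ∧ 0 < x ∧ 0 < y ∧ D ∣ x ∧ D ∣ y ∧
      x = z * (y + 1) ∧ c z = c y ∧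
      c (x + y) = c y ∧ ∀ k ≤ K, c (x * (y + 1) ^ k) = c y := by
  have hpow : ∀ m n, 0 < n → D ∣ n → c (q ^ m * n) = c n := by
    intro m n hn hDn
    induction m with
    | zero => simp
    | succ m ih =>
      rw [pow_succ', mul_assoc, h _ (Nat.mul_pos (Nat.pow_pos (by omega)) hn)
        (Dvd.dvd.mul_left hDn _), ih]
  apply rec_core r K D c hD
  intro N
  have hφ : 1 ≤ Nat.totient D := Nat.totient_pos.2 hD
  refine ⟨q ^ Nat.totient D, ?_, Nat.ModEq.pow_totient hqD, ?_⟩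
  · have : 2 ≤ q ^ Nat.totient D := hq.trans (Nat.le_self_pow (by omega) q)
    omega
  · intro n hn _ hDn k _ _
    rw [← pow_mul]
    exact hpow _ n hn hDn

/-- Invariance under `m`-th powers of numbers close to `1` in the profinite topology. -/
theorem rec_prof (r m : ℕ) (c : ℕ → Fin r) (hm : 1 ≤ m)
    (h : ∀ n, 0 < n → ∃ M : ℕ, 1 ≤ M ∧ ∀ s, 0 < s → s ≡ 1 [MOD M] → c (s ^ m * n) = c n)
    (K D N : ℕ) (hD : 1 ≤ D) :
    ∃ x y z : ℕ, N ≤ x ∧ N ≤ y ∧ 0 < x ∧ 0 < y ∧ D ∣ x ∧ D ∣ y ∧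
      x = z * (y + 1) ∧ c z = c y ∧
      c (x + y) = c y ∧ ∀ k ≤ K, c (x * (y + 1) ^ k) = c y := by
  choose M hM1 hM using h
  apply rec_core r K D c hD
  intro N
  set Q : ℕ := D * ∏ n ∈ (Finset.Icc 1 N).attach,
    M n.1 (Finset.mem_Icc.1 n.2).1 with hQ
  have hQpos : 1 ≤ Q := by
    rw [hQ]
    apply Nat.mul_pos hD
    apply Finset.prod_pos
    intro n _
    exact hM1 _ _
  have ht : 1 + Q ≡ 1 [MOD Q] := by
    unfold Nat.ModEq
    simp
  have hDQ : D ∣ Q := Dvd.intro _ rfl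
  refine ⟨(1 + Q) ^ m, ?_, ?_, ?_⟩
  · have : 2 ≤ (1 + Q) ^ m := (show 2 ≤ 1 + Q by omega).trans (Nat.le_self_pow (by omega) _)
    omega
  · have h1 := (ht.of_dvd hDQ).pow m
    rwa [one_pow] at h1
  · intro n hn hnN _ k _ _
    have hMn : M n hn ∣ Q := by
      rw [hQ]
      apply Dvd.dvd.mul_left
      exact Finset.dvd_prod_of_mem (fun n : {x // x ∈ Finset.Icc 1 N} =>
        M n.1 (Finset.mem_Icc.1 n.2).1) (Finset.mem_attach _ ⟨n, Finset.mem_Icc.2 ⟨hn, hnN⟩⟩)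
    rw [← pow_mul, mul_comm m k, pow_mul]
    apply hM n hn
    · positivity
    · have h1 := (ht.of_dvd hMn).pow k
      rwa [one_pow] at h1

/-- The colour depends only on the residue class and on the class modulo `m`-th powers. -/
theorem rec_class (r m b : ℕ) (c : ℕ → Fin r) (hm : 1 ≤ m) (hb : 1 ≤ b)
    (h : ∀ n n' s t, 0 < n → 0 < n' → 0 < s → 0 < t → n ≡ n' [MOD b] →
      n * s ^ m = n' * t ^ m → c n = c n')
    (K D N : ℕ) (hD : 1 ≤ D) :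
    ∃ x y z : ℕ, N ≤ x ∧ N ≤ y ∧ 0 < x ∧ 0 < y ∧ D ∣ x ∧ D ∣ y ∧
      x = z * (y + 1) ∧ c z = c y ∧
      c (x + y) = c y ∧ ∀ k ≤ K, c (x * (y + 1) ^ k) = c y := by
  apply rec_prof r m c hm _ K D N hD
  intro n hn
  refine ⟨b, hb, ?_⟩
  intro s hs hsb
  apply h _ _ 1 s (Nat.mul_pos (Nat.pow_pos hs) hn) hn one_pos hs
  · have h1 := (hsb.pow m).mul_right n
    rwa [one_pow, one_mul] at h1
  · rw [one_pow, mul_one, mul_comm]

end Pool.Agent.Helper99.XYS
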